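import Pool.Agent.V11261.AK.Main
import Pool.Agent.W558.T3.Base

/-!
MP_b525bf_ag: resolution of the quotients of `Spec B × 𝔸 ^ m`, of arbitrary dimension, by products
of arbitrary finite flat subgroup schemes of the additive group over `B` (the kernels of monic
additive polynomials) which act by translations.

1. The resolution is reduced to the principalization of ideals of `B`.
2. The case of translation vectors whose entries are monomials `b t ^ α` over `B [t 1, ..., t n]`,
where `Spec B` is a point or an arbitrary affine surface (or has log smooth models).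
-/

set_option autoImplicit false

open AlgebraicGeometry CategoryTheory MvPolynomial Pool.Agent.H920R2 Pool.Agent.W558

universe u

namespace Pool.Agent.Results.MP_b525bf_ag.AdditiveKernels

/-- The structure morphism of the spectrum of a subalgebra. -/
noncomputable def str {k B : Type u} [Field k] [CommRing B] [Algebra k B] (C : Subalgebra k B) :
    Spec (CommRingCat.of C) ⟶ Spec (CommRingCat.of k) :=
  Spec.map (CommRingCat.ofHom (algebraMap k C))

/-- The spectrum of the subalgebra `C` is a variety and has a resolution of singularities: there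
are an integral scheme `Y`, smooth over `k`, and a proper morphism from `Y` to the spectrum which
is an isomorphism over a dense open subset. -/
def IsResolvable {k B : Type u} [Field k] [CommRing B] [Algebra k B] (C : Subalgebra k B) : Prop :=
  IsVariety (str C) ∧
  ∃ (Y : Scheme.{u}) (π : Y ⟶ Spec (CommRingCat.of C)),
    AlgebraicGeometry.IsIntegral Y ∧ AlgebraicGeometry.IsProper π ∧
    AlgebraicGeometry.Smooth (π ≫ str C) ∧
    ∃ U : (Spec (CommRingCat.of C)).Opens, Dense (U : Set (Spec (CommRingCat.of C))) ∧
      IsIso (π ∣_ U)

section defs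

variable {B : Type u} [CommRing B] {m r : ℕ}

/-- The homomorphism `f (y) ↦ f (y + T w)` from `B[y 1, ..., y m]` to `B[y 1, ..., y m][T]`. -/
noncomputable def generic (w : Fin m → B) :
    MvPolynomial (Fin m) B →ₐ[B] Polynomial (MvPolynomial (Fin m) B) :=
  aeval fun j => Polynomial.C (X j) + Polynomial.X * Polynomial.C (C (w j))

/-- The monic additive polynomial `T ^ (p ^ s) + ∑ l < s, a l * T ^ (p ^ l)`. -/
noncomputable def additive (p s : ℕ) (a : ℕ → B) : Polynomial B :=
  Polynomial.X ^ p ^ s + ∑ l ∈ Finset.range s, Polynomial.C (a l) * Polynomial.X ^ p ^ l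

/-- The algebra of the functions `f (y)` on `Spec B × 𝔸 ^ m` which are invariant under the
translations `y ↦ y + T w i` for `T` in the kernel of the additive polynomial
`P i = additive p (s i) (a i)`: `f (y + T w i) ≡ f (y)` modulo `P i (T)`, for all `i`. -/
noncomputable def invariants (k : Type u) [Field k] [Algebra k B] (p : ℕ)
    (w : Fin r → Fin m → B) (s : Fin r → ℕ) (a : Fin r → ℕ → B) :
    Subalgebra k (MvPolynomial (Fin m) B) where
  carrier := {f | ∀ i, (additive p (s i) (a i)).map C ∣ generic (w i) f - Polynomial.C f}
  mul_mem' := by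
    intro f g hf hg i
    have h : generic (w i) (f * g) - Polynomial.C (f * g) =
        (generic (w i) f - Polynomial.C f) * generic (w i) g +
          Polynomial.C f * (generic (w i) g - Polynomial.C g) := by
      rw [map_mul, map_mul]; ring
    rw [h]
    exact dvd_add (dvd_mul_of_dvd_left (hf i) _) (dvd_mul_of_dvd_right (hg i) _)
  add_mem' := by
    intro f g hf hg i
    have h : generic (w i) (f + g) - Polynomial.C (f + g) =
        (generic (w i) f - Polynomial.C f) + (generic (w i) g - Polynomial.C g) := by
      rw [map_add, map_add]; ring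
    rw [h]
    exact dvd_add (hf i) (hg i)
  algebraMap_mem' := by
    intro c i
    have h : generic (w i) (C (algebraMap k B c)) = Polynomial.C (C (algebraMap k B c)) :=
      (generic (w i)).commutes _
    change _ ∣ generic (w i) (C (algebraMap k B c)) - Polynomial.C (C (algebraMap k B c))
    rw [h, sub_self]
    exact dvd_zero _

/-- The coordinate ring of the chart `y q ≠ 0` of the blowup of the ideal of `B` generated by the
elements `y q'`: the algebra generated by `B` and the fractions `y q' / y q`. -/
noncomputable def chart (k : Type u) {B : Type u} [Field k] [CommRing B] [IsDomain B]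
    [Algebra k B] {Q : Type} (y : Q → B) (q : Q) : Subalgebra k (FractionRing B) :=
  Algebra.adjoin k (Set.range (algebraMap B (FractionRing B)) ∪ Set.range fun q' =>
    algebraMap B (FractionRing B) (y q') / algebraMap B (FractionRing B) (y q))

end defs

/-- Let `k` be a field of characteristic `p` and `B` a domain of finite type over `k`. Let
`w 1, ..., w r` be vectors in `B ^ m` with pairwise disjoint supports and let
`P i = T ^ (p ^ s i) + ∑ l < s i, a i l * T ^ (p ^ l)` be arbitrary monic additive polynomials over
`B`. The finite flat group scheme `ker (P 1) × ... × ker (P r)` over `B` acts on `Spec B × 𝔸 ^ m` by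
the translations `y ↦ y + T 1 * w 1 + ... + T r * w r`. The quotient, the spectrum of the ring of
invariants, is a variety and has a resolution of singularities in the following cases.

1. The vectors `w i` are not zero, and there is an ideal `J = (z 1, ..., z N) ≠ 0` of `B` such that
the blowup of the ideal `J * I 1 * ... * I r`, where `I i` is the ideal generated by the entries of
`w i`, is smooth over `k`.

2. `B` is the polynomial ring `B₀[t 1, ..., t n]`, where `Spec B₀` is an affine surface over the
perfect field `k`, possibly singular, which is birational to a smooth projective surface, or `B₀` has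
log smooth models, or `B₀ = k`, and the entries of the `w i` are monomials `b i j * t ^ (α i j)`
with `b i j` in `B₀`. -/
theorem result (p : ℕ) [Fact p.Prime] (k : Type u) [Field k] [CharP k p] :
    (∀ (B : Type u) [CommRing B] [IsDomain B] [Algebra k B] [Algebra.FiniteType k B] (m r : ℕ)
      (w : Fin r → Fin m → B), (∀ i i', i ≠ i' → ∀ j, w i j = 0 ∨ w i' j = 0) →
      ∀ (s : Fin r → ℕ) (a : Fin r → ℕ → B), (∀ i, w i ≠ 0) →
      ∀ (N : ℕ) (z : Fin N → B), (∃ l, z l ≠ 0) →
      (∀ q : Fin N × (Fin r → Fin m), z q.1 * ∏ i, w i (q.2 i) ≠ 0 → Algebra.Smooth k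
        (chart k (fun q : Fin N × (Fin r → Fin m) => z q.1 * ∏ i, w i (q.2 i)) q)) →
      IsResolvable (invariants k p w s a)) ∧
    ∀ (B₀ : Type u) [CommRing B₀] [IsDomain B₀] [Algebra k B₀] [Algebra.FiniteType k B₀],
      (PerfectField k ∧ Algebra.trdeg k (FractionRing B₀) = 2 ∧ HasModel k (FractionRing B₀)) ∨
        HasLogModels k (FractionRing B₀) ∨ Function.Surjective (algebraMap k B₀) →
      ∀ (n m r : ℕ) (b : Fin r → Fin m → B₀), (∀ i i', i ≠ i' → ∀ j, b i j = 0 ∨ b i' j = 0) →
      ∀ (α : Fin r → Fin m → Fin n → ℕ) (s : Fin r → ℕ)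
        (a : Fin r → ℕ → MvPolynomial (Fin n) B₀),
      IsResolvable (invariants k p (fun i j => C (b i j) * ∏ l, X l ^ α i j l) s a) := by
  have heq : ∀ (B : Type u) [CommRing B] [IsDomain B] [Algebra k B] (m r : ℕ)
      (w : Fin r → Fin m → B) (s : Fin r → ℕ) (a : Fin r → ℕ → B),
      invariants k p w s a = Pool.Agent.V11261.AK.ring k
        (Pool.Agent.V11261.AK.lst w fun i => Pool.Agent.V11261.AK.ap p (s i) (a i)) := by
    intro B _ _ _ m r w s a
    ext f
    rw [Pool.Agent.V11261.AK.mem_ring_lst]
    exact Iff.rfl
  refine ⟨?_, ?_⟩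
  · intro B _ _ _ _ m r w hw s a hw0 N z hz hs
    have hBp : CharP B p :=
      charP_of_injective_algebraMap (FaithfulSMul.algebraMap_injective k B) p
    rw [heq]
    exact Pool.Agent.V11261.AK.main_blowup w hw hw0 s a z hz hs
  · intro B₀ _ _ _ _ hB n m r b hb α s a
    have hBp : CharP B₀ p :=
      charP_of_injective_algebraMap (FaithfulSMul.algebraMap_injective k B₀) p
    have hE : Pool.Agent.W418.LCI.HasLM k (FractionRing B₀) := by
      rcases hB with ⟨h1, h2, h3⟩ | h | h
      · exact Pool.Agent.W418.LCI.hasLM_of_surface k _ h2 h3
      · exact Pool.Agent.W418.LCI.hasLM_of_models k _ h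
      · refine Pool.Agent.V11261.AK.hasLM_of_surjective fun x => ?_
        obtain ⟨x, y, hy, rfl⟩ := IsFractionRing.div_surjective (A := B₀) x
        obtain ⟨x, rfl⟩ := h x
        obtain ⟨y, rfl⟩ := h y
        exact ⟨x / y, by
          rw [map_div₀, IsScalarTower.algebraMap_apply k B₀ (FractionRing B₀) x,
            IsScalarTower.algebraMap_apply k B₀ (FractionRing B₀) y]⟩
    rw [heq]
    exact Pool.Agent.V11261.AK.main_tor hE b hb α s a

end Pool.Agent.Results.MP_b525bf_ag.AdditiveKernels
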