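import Pool.Agent.V11261.HG.Base
import Pool.Agent.W558.T3.Base

/-!
MP_b525bf_ag: resolution of the quotients of `Spec B × 𝔸 ^ m`, of arbitrary dimension, by the
infinitesimal group schemes over `B` which degenerate from `μ_(p ^ s)` to `α_(p ^ s)`, acting by
families of homotheties degenerating to translations.

1. The resolution is reduced to the principalization of ideals of `B`.
2. The case where the coefficients of the action are monomials `b t ^ α` over
`B [t 1, ..., t n]`, where `Spec B` is a point or an arbitrary affine surface (or has log smooth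
models).
-/

set_option autoImplicit false

open AlgebraicGeometry CategoryTheory MvPolynomial Pool.Agent.H920R2 Pool.Agent.W558

universe u

namespace Pool.Agent.Results.MP_b525bf_ag.DegeneratingHomotheties

/-- The structure morphism of the spectrum of a subalgebra. -/
noncomputable def str {k B : Type u} [Field k] [CommRing B] [Algebra k B] (C : Subalgebra k B) :
    Spec (CommRingCat.of C) ⟶ Spec (CommRingCat.of k) :=
  Spec.map (CommRingCat.ofHom (algebraMap k C))

/-- The spectrum of the subalgebra `C` is a variety and has a resolution of singularities: there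
are an integral scheme `Y`, smooth over `k`, and a proper morphism from `Y` to the spectrum which
is an isomorphism over a dense open subset. -/
def IsResolvable {k B : Type u} [Field k] [CommRing B] [Algebra k B] (C : Subalgebra k B) : Prop :=
  IsVariety (str C) ∧
  ∃ (Y : Scheme.{u}) (π : Y ⟶ Spec (CommRingCat.of C)),
    AlgebraicGeometry.IsIntegral Y ∧ AlgebraicGeometry.IsProper π ∧
    AlgebraicGeometry.Smooth (π ≫ str C) ∧
    ∃ U : (Spec (CommRingCat.of C)).Opens, Dense (U : Set (Spec (CommRingCat.of C))) ∧
      IsIso (π ∣_ U)

section defs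

variable {B : Type u} [CommRing B] {m : ℕ}

/-- The homomorphism `f (y) ↦ f (y + T (c y + w))` from `B[y 1, ..., y m]` to
`B[y 1, ..., y m][T]`. -/
noncomputable def generic (c : B) (w : Fin m → B) :
    MvPolynomial (Fin m) B →ₐ[B] Polynomial (MvPolynomial (Fin m) B) :=
  aeval fun j => Polynomial.C (X j) + Polynomial.X * Polynomial.C (C c * X j + C (w j))

/-- The algebra of the functions `f (y)` on `Spec B × 𝔸 ^ m` with
`f ((1 + c T) y + T w) ≡ f (y)` modulo `T ^ q`. -/
noncomputable def invariants (k : Type u) [Field k] [Algebra k B] (q : ℕ) (c : B)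
    (w : Fin m → B) : Subalgebra k (MvPolynomial (Fin m) B) where
  carrier := {f | Polynomial.X ^ q ∣ generic c w f - Polynomial.C f}
  mul_mem' := by
    intro f g hf hg
    have h : generic c w (f * g) - Polynomial.C (f * g) =
        (generic c w f - Polynomial.C f) * generic c w g +
          Polynomial.C f * (generic c w g - Polynomial.C g) := by
      rw [map_mul, map_mul]; ring
    change Polynomial.X ^ q ∣ generic c w (f * g) - Polynomial.C (f * g)
    rw [h]
    exact dvd_add (dvd_mul_of_dvd_left hf _) (dvd_mul_of_dvd_right hg _)
  add_mem' := by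
    intro f g hf hg
    have h : generic c w (f + g) - Polynomial.C (f + g) =
        (generic c w f - Polynomial.C f) + (generic c w g - Polynomial.C g) := by
      rw [map_add, map_add]; ring
    change Polynomial.X ^ q ∣ generic c w (f + g) - Polynomial.C (f + g)
    rw [h]
    exact dvd_add hf hg
  algebraMap_mem' := by
    intro x
    have h : generic c w (C (algebraMap k B x)) = Polynomial.C (C (algebraMap k B x)) :=
      (generic c w).commutes _
    change _ ∣ generic c w (C (algebraMap k B x)) - Polynomial.C (C (algebraMap k B x))
    rw [h, sub_self]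
    exact dvd_zero _

/-- The family of the elements `c, w 1, ..., w m`. -/
def coeffs (c : B) (w : Fin m → B) (o : Option (Fin m)) : B := o.elim c w

/-- The coordinate ring of the chart `y q ≠ 0` of the blowup of the ideal of `B` generated by the
elements `y q'`: the algebra generated by `B` and the fractions `y q' / y q`. -/
noncomputable def chart (k : Type u) {B : Type u} [Field k] [CommRing B] [IsDomain B]
    [Algebra k B] {Q : Type} (y : Q → B) (q : Q) : Subalgebra k (FractionRing B) :=
  Algebra.adjoin k (Set.range (algebraMap B (FractionRing B)) ∪ Set.range fun q' =>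
    algebraMap B (FractionRing B) (y q') / algebraMap B (FractionRing B) (y q))

end defs

/-- Let `k` be a field of characteristic `p`, `B` a domain of finite type over `k`, `c` an element of
`B` and `w` a vector in `B ^ m`, `m ≥ 1`, not both zero, and `s ≥ 0`. Let `N` be the finite flat
group scheme over `B` defined by `T ^ (p ^ s) = 0` in the group scheme with the law
`T + T' + c T T'`. It is isomorphic to `μ_(p ^ s)` where `c` is invertible and to `α_(p ^ s)`, the
kernel of the Frobenius morphism, where `c` is zero. It acts on `Spec B × 𝔸 ^ m` by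
`y ↦ (1 + c T) y + T w`. The quotient, the spectrum of the ring of invariants, is a variety and has
a resolution of singularities in the following cases.

1. There is an ideal `J = (z 1, ..., z N) ≠ 0` of `B` such that the blowup of the ideal
`J * (c, w 1, ..., w m)` is smooth over `k`.

2. `B` is the polynomial ring `B₀[t 1, ..., t n]`, where `Spec B₀` is an affine surface over the
perfect field `k`, possibly singular, which is birational to a smooth projective surface, or `B₀` has
log smooth models, or `B₀ = k`, and `c` and the `w j` are monomials `b t ^ α` with `b` in `B₀`. -/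
theorem result (p : ℕ) [Fact p.Prime] (k : Type u) [Field k] [CharP k p] :
    (∀ (B : Type u) [CommRing B] [IsDomain B] [Algebra k B] [Algebra.FiniteType k B] (m : ℕ),
      0 < m → ∀ (c : B) (w : Fin m → B), c ≠ 0 ∨ w ≠ 0 →
      ∀ (s N : ℕ) (z : Fin N → B), (∃ l, z l ≠ 0) →
      (∀ q : Fin N × Option (Fin m), z q.1 * coeffs c w q.2 ≠ 0 → Algebra.Smooth k
        (chart k (fun q : Fin N × Option (Fin m) => z q.1 * coeffs c w q.2) q)) →
      IsResolvable (invariants k (p ^ s) c w)) ∧
    ∀ (B₀ : Type u) [CommRing B₀] [IsDomain B₀] [Algebra k B₀] [Algebra.FiniteType k B₀],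
      (PerfectField k ∧ Algebra.trdeg k (FractionRing B₀) = 2 ∧ HasModel k (FractionRing B₀)) ∨
        HasLogModels k (FractionRing B₀) ∨ Function.Surjective (algebraMap k B₀) →
      ∀ (n m : ℕ), 0 < m → ∀ (s : ℕ) (b₀ : B₀) (b : Fin m → B₀), b₀ ≠ 0 ∨ b ≠ 0 →
      ∀ (α₀ : Fin n → ℕ) (α : Fin m → Fin n → ℕ),
      IsResolvable (invariants k (p ^ s) (C b₀ * ∏ l, X l ^ α₀ l)
        (fun j => C (b j) * ∏ l, X l ^ α j l)) := by
  have heq : ∀ (B : Type u) [CommRing B] [IsDomain B] [Algebra k B] (m : ℕ) (q : ℕ) (c : B)
      (w : Fin m → B), invariants k q c w = Pool.Agent.V11261.HG.ringB k c w q := by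
    intro B _ _ _ m q c w
    ext f
    exact Iff.rfl
  have hco : ∀ (B : Type u) [CommRing B] (m : ℕ) (c : B) (w : Fin m → B),
      coeffs c w = Pool.Agent.V11261.HG.Fo c w := by
    intro B _ m c w
    funext o
    cases o <;> rfl
  refine ⟨?_, ?_⟩
  · intro B _ _ _ _ m hm c w h0 s N z hz hs
    have hBp : CharP B p :=
      charP_of_injective_algebraMap (FaithfulSMul.algebraMap_injective k B) p
    have hne : Nonempty (Fin m) := ⟨⟨0, hm⟩⟩
    rw [heq]
    rw [hco] at hs
    exact Pool.Agent.V11261.HG.main_blowup (p := p) s c w h0 z hz hs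
  · intro B₀ _ _ _ _ hB n m hm s b₀ b h0 α₀ α
    have hBp : CharP B₀ p :=
      charP_of_injective_algebraMap (FaithfulSMul.algebraMap_injective k B₀) p
    have hne : Nonempty (Fin m) := ⟨⟨0, hm⟩⟩
    have hE : Pool.Agent.W418.LCI.HasLM k (FractionRing B₀) := by
      rcases hB with ⟨h1, h2, h3⟩ | h | h
      · exact Pool.Agent.W418.LCI.hasLM_of_surface k _ h2 h3
      · exact Pool.Agent.W418.LCI.hasLM_of_models k _ h
      · refine Pool.Agent.V11261.AK.hasLM_of_surjective fun x => ?_
        obtain ⟨x, y, hy, rfl⟩ := IsFractionRing.div_surjective (A := B₀) x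
        obtain ⟨x, rfl⟩ := h x
        obtain ⟨y, rfl⟩ := h y
        exact ⟨x / y, by
          rw [map_div₀, IsScalarTower.algebraMap_apply k B₀ (FractionRing B₀) x,
            IsScalarTower.algebraMap_apply k B₀ (FractionRing B₀) y]⟩
    rw [heq]
    refine Pool.Agent.V11261.HG.main_tor (p := p) hE s (fun o => o.elim b₀ b)
      (fun o => o.elim α₀ α) ?_
    rcases h0 with h | h
    · exact fun h1 => h (congrFun h1 none)
    · exact fun h1 => h (funext fun j => congrFun h1 (some j))

end Pool.Agent.Results.MP_b525bf_ag.DegeneratingHomotheties
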