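import Pool.Agent.Y177.Dg.LocP
import Pool.Agent.Y177.Dg.Act
import Pool.Agent.Y177.Dg.Grd
import Pool.Agent.H519R3.RS.Centre

/-!
MP_b525bf_ag: resolution of the quotients of affine varieties of characteristic `p` by finite group
schemes which are extensions of a tame (diagonalizable) group by a tower of automorphisms of order
`p` and `p`-closed vector fields; in particular of the quotients of smooth affine varieties by
finite groups `G` with a normal subgroup `P` of order `p` which acts linearly in etale coordinates
near its fixed points and with `G / P` abelian of order prime to `p`, and of the quotients of powers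
`W ^ n` of smooth affine varieties by permutation groups of this kind, for example by the solvable
transitive permutation groups of degree `p`.
-/

set_option autoImplicit false

open AlgebraicGeometry CategoryTheory MvPolynomial TensorProduct Pool.Agent.H920R2
  Pool.Agent.H519R3.RS

universe u

namespace Pool.Agent.Results.MP_b525bf_ag.TowersWithTameQuotient

/-- The structure morphism of the spectrum of a subalgebra. -/
noncomputable def str {k B : Type u} [Field k] [CommRing B] [Algebra k B] (C : Subalgebra k B) :
    Spec (CommRingCat.of C) ⟶ Spec (CommRingCat.of k) :=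
  Spec.map (CommRingCat.ofHom (algebraMap k C))

/-- The spectrum of the subalgebra `C` is a variety and has a resolution of singularities: there
are an integral scheme `Y`, smooth over `k`, and a proper morphism from `Y` to the spectrum which
is an isomorphism over a dense open subset. -/
def IsResolvable {k B : Type u} [Field k] [CommRing B] [Algebra k B] (C : Subalgebra k B) : Prop :=
  IsVariety (str C) ∧
  ∃ (Y : Scheme.{u}) (π : Y ⟶ Spec (CommRingCat.of C)),
    AlgebraicGeometry.IsIntegral Y ∧ AlgebraicGeometry.IsProper π ∧
    AlgebraicGeometry.Smooth (π ≫ str C) ∧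
    ∃ U : (Spec (CommRingCat.of C)).Opens, Dense (U : Set (Spec (CommRingCat.of C))) ∧
      IsIso (π ∣_ U)

/-- The endomorphism `ρ` is linear in etale coordinates near its fixed points: for every prime
ideal `q` with `ρ b - b ∈ q` for all `b` there are an element `f` outside `q` which is fixed by `ρ`
and etale coordinates `y i / f ^ N` on `Spec B[1 / f]` such that the linear span of the `y i` is
mapped to itself by `ρ`. -/
def IsLocallyLinear {k B : Type u} [Field k] [CommRing B] [Algebra k B] (ρ : B →ₐ[k] B) : Prop :=
  ∀ q : Ideal B, q.IsPrime → (∀ b, ρ b - b ∈ q) →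
    ∃ f : B, f ∉ q ∧ ρ f = f ∧ ∃ (m N : ℕ) (y : Fin m → B),
      ((aeval fun i => algebraMap B (Localization.Away f) (y i) *
          IsLocalization.Away.invSelf f ^ N :
        MvPolynomial (Fin m) k →ₐ[k] Localization.Away f).toRingHom).Etale ∧
      ∀ i, ρ (y i) ∈ Submodule.span k (Set.range y)

/-- The ring of invariants of a group of automorphisms. -/
def invariants {k B : Type u} [Field k] [CommRing B] [Algebra k B] {G : Type} [Group G]
    (θ : G →* (B ≃ₐ[k] B)) : Subalgebra k B where
  carrier := {b | ∀ g, θ g b = b}
  mul_mem' := fun {a b} ha hb g => by rw [map_mul, ha g, hb g]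
  add_mem' := fun {a b} ha hb g => by rw [map_add, ha g, hb g]
  algebraMap_mem' := fun c g => AlgEquiv.commutes _ _

/-- The permutation of the factors of the algebra `⨂ A`: it maps `⨂ a_i` to `⨂ a_{π i}`. -/
noncomputable def perm (k A : Type u) [Field k] [CommRing A] [Algebra k A] {n : ℕ}
    (π : Equiv.Perm (Fin n)) : (⨂[k] _ : Fin n, A) →ₐ[k] (⨂[k] _ : Fin n, A) :=
  PiTensorProduct.liftAlgHom
    ((PiTensorProduct.tprod k : MultilinearMap k (fun _ : Fin n => A) _).domDomCongr π)
    (by
      rw [MultilinearMap.domDomCongr_apply, PiTensorProduct.one_def]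
      rfl)
    (by
      intro x y
      rw [MultilinearMap.domDomCongr_apply, MultilinearMap.domDomCongr_apply,
        MultilinearMap.domDomCongr_apply, PiTensorProduct.tprod_mul_tprod]
      rfl)

/-- The ring of invariants of a group of permutations of the factors. -/
noncomputable def permInvariants (k A : Type u) [Field k] [CommRing A] [Algebra k A] {n : ℕ}
    (G : Subgroup (Equiv.Perm (Fin n))) : Subalgebra k (⨂[k] _ : Fin n, A) where
  carrier := {b | ∀ π ∈ G, perm k A π b = b}
  mul_mem' := fun {a b} ha hb g hg => by rw [map_mul, ha g hg, hb g hg]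
  add_mem' := fun {a b} ha hb g hg => by rw [map_add, ha g hg, hb g hg]
  algebraMap_mem' := fun c g _ => AlgHom.commutes _ _

/-- Let `k` be a field of characteristic `p`.

1. Let `B` be a domain over `k` and `F` a decreasing multiplicative filtration of `B` by ideals,
with `F 0 = B` and `F 1 ≠ 0`, such that either the weighted blowup of `F` is smooth (`Good`; here
`B` may be singular), or `B` is smooth and `F` is a regular weighted centre. Let
`B = C 0 ⊇ C 1 ⊇ ... ⊇ C n` be a chain of subalgebras such that `C (i + 1)` is the ring of constants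
of a `p`-closed derivation of `C i` (`DStep`) or the ring of invariants of an automorphism of `C i`
of order dividing `p` (`SStep`), whose leading forms have no zeros outside the vertex. Let
`D = Spec k[Λ]` be a finite diagonalizable group scheme (the order of `Λ` may be divisible by `p`)
which acts on `Spec (C n)`, that is, let `𝒜` be a grading of `C n` by `Λ`, such that the filtration
induced on `C n` is homogeneous. Then `Spec (C n) / D`, the spectrum of the part of degree zero of
`C n`, is a variety and has a resolution of singularities.

2. Let `G` be a finite group with a normal subgroup `P` of order `1` or `p` such that `G / P` is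
abelian of order prime to `p`, and suppose that `k` contains enough roots of unity for `G / P`. Let
`G` act on a smooth affine variety `X = Spec B` such that the elements of `P` are linear in etale
coordinates near their fixed points. Then `X / G` has a resolution of singularities.

3. Let `G` be a group of permutations of `n` letters with these properties, and `W = Spec A` a
smooth affine variety such that `W ^ n` is integral, which is automatic if `k` is algebraically
closed. Then `W ^ n / G` has a resolution of singularities. -/
theorem result (p : ℕ) [Fact p.Prime] (k : Type u) [Field k] [CharP k p] :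
    (∀ (B : Type u) [CommRing B] [IsDomain B] [Algebra k B] (F : ℕ → Ideal B) (hF : IsFilt F),
      F 1 ≠ ⊥ → Good k hF ∨ (Algebra.Smooth k B ∧ RegularWeightedCentre k F) →
      ∀ (n : ℕ) (C : ℕ → Subalgebra k B), C 0 = ⊤ →
      (∀ i < n, DStep p F (C i) (C (i + 1)) ∨ SStep p F (C i) (C (i + 1))) →
      ∀ (Λ : Type) [AddCommGroup Λ] [Finite Λ] [DecidableEq Λ] (𝒜 : Λ → Submodule k (C n))
        [GradedAlgebra 𝒜], (∀ d, (restr F (C n) d).IsHomogeneous 𝒜) →
      ∀ D : Subalgebra k (C n), (∀ c, c ∈ D ↔ c ∈ 𝒜 0) → IsResolvable D) ∧
    (∀ (B : Type u) [CommRing B] [IsDomain B] [Algebra k B] [Algebra.Smooth k B] (G : Type)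
      [Group G] [Finite G] (θ : G →* (B ≃ₐ[k] B)) (P : Subgroup G) [P.Normal], Nat.card P ∣ p →
      (∀ g h : G, g * h * g⁻¹ * h⁻¹ ∈ P) → P.index.Coprime p →
      ∀ [HasEnoughRootsOfUnity k (Monoid.exponent (G ⧸ P))],
      (∀ g ∈ P, IsLocallyLinear (θ g : B →ₐ[k] B)) → IsResolvable (invariants θ)) ∧
    ∀ (A : Type u) [CommRing A] [IsDomain A] [Algebra k A] [Algebra.Smooth k A] (n : ℕ),
      IsAlgClosed k ∨ IsDomain (⨂[k] _ : Fin n, A) →
      ∀ (G : Subgroup (Equiv.Perm (Fin n))) (P : Subgroup G) [P.Normal], Nat.card P ∣ p →
      (∀ g h : G, g * h * g⁻¹ * h⁻¹ ∈ P) → P.index.Coprime p →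
      ∀ [HasEnoughRootsOfUnity k (Monoid.exponent (G ⧸ P))],
      IsResolvable (permInvariants k A G) := by
  have hp : p.Prime := Fact.out
  have hpk : (p : k) = 0 := CharP.cast_eq_zero k p
  have hQ : ∀ m : ℕ, m.Coprime p → (m : k) ≠ 0 := by
    intro m hm
    rw [Ne, CharP.cast_eq_zero_iff k p]
    intro h
    exact (Nat.Prime.coprime_iff_not_dvd hp).1 hm.symm h
  refine ⟨?_, ?_, ?_⟩
  · intro B _ _ _ F hF hne hG n C hC0 hC Λ _ _ _ 𝒜 _ hom D hD
    have _ : Fintype Λ := Fintype.ofFinite Λ
    have hG' : Good k hF := by
      rcases hG with h | ⟨h1, h2⟩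
      · exact h
      · exact good_of_centre hF h2
    have key : ∀ i ≤ n, Good k (isFilt_restr hF (C i)) ∧ restr F (C i) 1 ≠ ⊥ := by
      intro i
      induction i with
      | zero => intro _; exact good_top hF hG' hne hC0
      | succ i ih =>
        intro hi
        obtain ⟨h1, h2⟩ := ih (by omega)
        rcases hC i (by omega) with h | h
        · exact good_dstep hp hpk hF h h1 h2
        · exact good_sstep hp hpk hF h h1 h2
    obtain ⟨h1, h2⟩ := key n le_rfl
    have hFn := isFilt_restr hF (C n)
    obtain ⟨h3, h4⟩ := good_top hFn h1 h2 (C := ⊤) rfl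
    have hpg := Pool.Agent.Y177.Dg.pg_grd 𝒜
    refine Pool.Agent.Y177.Dg.concl_zr (C := ⊤) hFn h3 h4 hpg (fun _ _ _ => trivial) ?_ D ?_
    · intro d c hc i
      rw [GradedAlgebra.proj_apply]
      exact hom d i hc
    · intro c
      rw [hD, Pool.Agent.Y177.Dg.proj_eq_iff]
      exact ⟨fun h => ⟨trivial, h⟩, fun h => h.2⟩
  · intro B _ _ _ _ G _ _ θ P _ hP hab hcop _ hL
    exact Pool.Agent.Y177.Dg.loc_group (p := p) hp hpk θ P hP hab (hQ _ hcop) hL
      (invariants θ) fun b => Iff.rfl
  · intro A _ _ _ _ n hdom G P _ hP hab hcop _
    have hdomB : IsDomain (⨂[k] _ : Fin n, A) := by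
      rcases hdom with h | h
      · exact isDomain_pi n fun _ => A
      · exact h
    exact Pool.Agent.Y177.Dg.perm_group (p := p) hp hpk G P hP hab (hQ _ hcop)
      (permInvariants k A G) fun b => Iff.rfl

end Pool.Agent.Results.MP_b525bf_ag.TowersWithTameQuotient
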